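import Pool.Agent.H45.JR.Main

/-!
# The optimal 1-ratio takes every irrational value at most once

`A₀ = [[1,1],[0,1]]`, `A₁ = [[1,0],[1,1]]`, and the family of the parameter `α` is `{A₀, α A₁}`.
Letters are numbered from `0`, so the product of the first `n` letters of `x` is
`A_{x (n-1)} ⋯ A_{x 0}`.
-/

set_option autoImplicit false

namespace Pool.Agent.Results.MP_5175aa_an.IrrationalFibres

open Filter Topology Pool.Agent.H45.JR

/-- the matrices `A₀^{(α)} = A₀` and `A₁^{(α)} = α A₁` -/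
def mat (α : ℝ) (i : Fin 2) : Matrix (Fin 2) (Fin 2) ℝ :=
  if i = 0 then !![1, 1; 0, 1] else α • !![1, 0; 1, 1]

/-- the product of the matrices of the first `n` letters of `x`, the first letter on the right -/
def prod (α : ℝ) (x : ℕ → Fin 2) : ℕ → Matrix (Fin 2) (Fin 2) ℝ
  | 0 => 1
  | n + 1 => mat α (x n) * prod α x n

/-- the sum of the absolute values of the entries, a matrix norm -/
def nrm (M : Matrix (Fin 2) (Fin 2) ℝ) : ℝ := ∑ i, ∑ j, |M i j|

/-- the joint spectral radius of `{A₀, α A₁}` -/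
noncomputable def jsr (α : ℝ) : ℝ :=
  limsup (fun n : ℕ => ⨆ x : ℕ → Fin 2, nrm (prod α x n) ^ (1 / (n : ℝ))) atTop

/-- the proportion of `1`s among the first `n` letters -/
noncomputable def ratio (x : ℕ → Fin 2) (n : ℕ) : ℝ :=
  (((Finset.range n).filter fun i => x i = 1).card : ℝ) / n

/-- `x` is weakly extremal for `{A₀, α A₁}` -/
def WeaklyExtremal (α : ℝ) (x : ℕ → Fin 2) : Prop :=
  Tendsto (fun n : ℕ => nrm (prod α x n) ^ (1 / (n : ℝ))) atTop (𝓝 (jsr α))

/-- `r` is the unique optimal 1-ratio of `{A₀, α A₁}` -/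
def IsOptimalRatio (α r : ℝ) : Prop :=
  r ∈ Set.Icc (0 : ℝ) 1 ∧
    ∀ x : ℕ → Fin 2, WeaklyExtremal α x → Tendsto (ratio x) atTop (𝓝 r)

/-- the letters as booleans -/
def tb (x : ℕ → Fin 2) (n : ℕ) : Bool := decide (x n = 1)

/-- the booleans as letters -/
def tf (y : ℕ → Bool) (n : ℕ) : Fin 2 := if y n then 1 else 0

lemma tb_tf (y : ℕ → Bool) : tb (tf y) = y := by
  funext n
  unfold tb tf
  cases y n <;> simp

lemma nrm_eq {M : Matrix (Fin 2) (Fin 2) ℝ} (hM : NN M) : nrm M = s M := by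
  obtain ⟨a, b, c, d⟩ := hM
  simp only [nrm, Fin.sum_univ_two, s]
  rw [abs_of_nonneg a, abs_of_nonneg b, abs_of_nonneg c, abs_of_nonneg d]
  ring

lemma prod_eq (c : ℝ) (x : ℕ → Fin 2) (n : ℕ) :
    prod (Real.exp c) x n = Real.exp (c * ones (seg (tb x) 0 n)) • P (seg (tb x) 0 n) := by
  induction n with
  | zero => simp [prod]
  | succ n ih =>
    rw [prod, ih, seg_succ, ones_cons, P_cons, zero_add]
    have h2 : x n = 0 ∨ x n = 1 := by
      have := (x n).2
      rcases Nat.lt_or_ge (x n).1 1 with h | h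
      · exact Or.inl (Fin.ext (by simpa using h))
      · exact Or.inr (Fin.ext (by simp; omega))
    rcases h2 with h | h
    · have e1 : tb x n = false := by simp [tb, h]
      rw [h, e1]
      simp only [mat, if_true, Bool.false_eq_true, if_false, zero_add]
      rw [Matrix.mul_smul]
      rfl
    · have e1 : tb x n = true := by simp [tb, h]
      rw [h, e1]
      simp only [mat, if_true, one_ne_zero, if_false]
      rw [Matrix.smul_mul, Matrix.mul_smul, smul_smul, ← Real.exp_add]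
      have e2 : c + c * (ones (seg (tb x) 0 n) : ℝ) =
        c * ((1 + ones (seg (tb x) 0 n) : ℕ) : ℝ) := by push_cast; ring
      rw [e2]
      rfl

lemma nrm_prod (c : ℝ) (x : ℕ → Fin 2) (n : ℕ) :
    nrm (prod (Real.exp c) x n) = Real.exp (G c (seg (tb x) 0 n)) := by
  have hNN : NN (prod (Real.exp c) x n) := by
    rw [prod_eq]
    obtain ⟨a, b, c', d⟩ := P_NN (seg (tb x) 0 n)
    refine ⟨?_, ?_, ?_, ?_⟩ <;> rw [Matrix.smul_apply, smul_eq_mul] <;> positivity
  rw [nrm_eq hNN, prod_eq]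
  unfold G
  rw [add_comm, Real.exp_add, Real.exp_log (s_P_pos _)]
  simp only [s, Matrix.smul_apply, smul_eq_mul]
  ring

lemma rpow_eq (c : ℝ) (x : ℕ → Fin 2) (n : ℕ) :
    nrm (prod (Real.exp c) x n) ^ (1 / (n : ℝ)) = Real.exp (G c (seg (tb x) 0 n) / n) := by
  rw [nrm_prod, ← Real.exp_mul]
  congr 1
  ring

lemma sup_eq (c : ℝ) (n : ℕ) :
    (⨆ x : ℕ → Fin 2, nrm (prod (Real.exp c) x n) ^ (1 / (n : ℝ))) =
      Real.exp (U c n / n) := by
  have hn : (0 : ℝ) ≤ n := by positivity
  have hle : ∀ x : ℕ → Fin 2, nrm (prod (Real.exp c) x n) ^ (1 / (n : ℝ)) ≤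
      Real.exp (U c n / n) := by
    intro x
    rw [rpow_eq, Real.exp_le_exp]
    have := G_le_U c (seg (tb x) 0 n)
    rw [seg_length] at this
    exact div_le_div_of_nonneg_right this hn
  apply le_antisymm
  · exact ciSup_le hle
  · obtain ⟨l, hl, hU⟩ := exists_U c n
    obtain ⟨y, hy⟩ := exists_seg l
    have h1 := rpow_eq c (tf y) n
    rw [tb_tf, ← hl, hy, hl, hU] at h1
    rw [← h1]
    exact le_ciSup (f := fun x : ℕ → Fin 2 => nrm (prod (Real.exp c) x n) ^ (1 / (n : ℝ)))
      ⟨_, by rintro _ ⟨x, rfl⟩; exact hle x⟩ (tf y)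

lemma jsr_exp {c L K : ℝ} (h : IsExp c L K) : jsr (Real.exp c) = Real.exp L := by
  unfold jsr
  have h1 : (fun n : ℕ => ⨆ x : ℕ → Fin 2, nrm (prod (Real.exp c) x n) ^ (1 / (n : ℝ))) =
      fun n : ℕ => Real.exp (U c n / n) := by
    funext n
    exact sup_eq c n
  rw [h1]
  exact ((Real.continuous_exp.tendsto L).comp h.tendsto).limsup_eq

lemma ratio_eq (y : ℕ → Bool) (n : ℕ) : ratio (tf y) n = (ones (seg y 0 n) : ℝ) / n := by
  unfold ratio
  congr 2
  induction n with
  | zero => simp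
  | succ n ih =>
    rw [Finset.range_add_one, Finset.filter_insert, seg_succ, ones_cons, zero_add]
    have h1 : tf y n = 1 ↔ y n = true := by
      unfold tf
      cases y n <;> simp
    by_cases h2 : y n = true
    · rw [if_pos (h1.2 h2), Finset.card_insert_of_notMem (by simp), ih, if_pos h2, add_comm]
    · rw [if_neg (fun h => h2 (h1.1 h)), ih, if_neg h2, zero_add]

lemma weakly {c L K : ℝ} {x : ℕ → Bool} {k0 : ℕ} (h : Ext c L K x k0) :
    WeaklyExtremal (Real.exp c) (tf x) := by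
  unfold WeaklyExtremal
  rw [jsr_exp h.exp]
  have h1 : (fun n : ℕ => nrm (prod (Real.exp c) (tf x) n) ^ (1 / (n : ℝ))) =
      fun n : ℕ => Real.exp (G c (seg x 0 n) / n) := by
    funext n
    rw [rpow_eq, tb_tf]
  rw [h1]
  refine (Real.continuous_exp.tendsto L).comp ?_
  have t1 : Tendsto (fun n : ℕ => L - 2 * K / (n : ℝ)) atTop (𝓝 (L - 0)) :=
    (tendsto_const_div_atTop_nhds_zero_nat _).const_sub _
  have t2 : Tendsto (fun n : ℕ => L + K / (n : ℝ)) atTop (𝓝 (L + 0)) :=
    (tendsto_const_div_atTop_nhds_zero_nat _).const_add _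
  rw [sub_zero] at t1
  rw [add_zero] at t2
  refine tendsto_of_tendsto_of_tendsto_of_le_of_le' t1 t2 ?_ ?_
  · filter_upwards [eventually_ge_atTop 1] with n hn
    have hn0 : (0 : ℝ) < n := by exact_mod_cast hn
    rw [le_div_iff₀ hn0]
    have := h.low 0 n
    have e : (L - 2 * K / (n : ℝ)) * n = L * n - 2 * K := by field_simp
    rw [e]
    exact this
  · filter_upwards [eventually_ge_atTop 1] with n hn
    have hn0 : (0 : ℝ) < n := by exact_mod_cast hn
    rw [div_le_iff₀ hn0]
    have := h.exp.upper (seg x 0 n)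
    rw [seg_length] at this
    have e : (L + K / (n : ℝ)) * n = K + L * n := by field_simp; ring
    rw [e]
    exact this

/-- the ratio of the family is attained by an extremal sequence with bounded runs -/
lemma ext_ratio {c γ : ℝ} (hopt : IsOptimalRatio (Real.exp c) γ) :
    ∃ L K x k0, Ext c L K x k0 ∧
      Tendsto (fun n : ℕ => (ones (seg x 0 n) : ℝ) / n) atTop (𝓝 γ) := by
  obtain ⟨L, K, x, k0, h⟩ := exists_Ext c
  refine ⟨L, K, x, k0, h, ?_⟩
  have h1 := hopt.2 (tf x) (weakly h)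
  have h2 : ratio (tf x) = fun n : ℕ => (ones (seg x 0 n) : ℝ) / n := by
    funext n
    exact ratio_eq x n
  rwa [h2] at h1

/-! ### the parameter `0` -/

lemma prod_zero_const (n : ℕ) : prod 0 (fun _ => 0) n = !![1, (n : ℝ); 0, 1] := by
  induction n with
  | zero =>
    rw [prod]
    ext i j; fin_cases i <;> fin_cases j <;> simp
  | succ n ih =>
    rw [prod, ih]
    ext i j
    fin_cases i <;> fin_cases j <;> simp [mat, Matrix.mul_apply, Fin.sum_univ_two]

lemma nrm_zero_const (n : ℕ) : nrm (prod 0 (fun _ => 0) n) = n + 2 := by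
  rw [prod_zero_const]
  simp only [nrm, Fin.sum_univ_two, Matrix.of_apply, Matrix.cons_val', Matrix.cons_val_zero,
    Matrix.cons_val_one, Matrix.cons_val_fin_one]
  rw [abs_of_nonneg (show (0 : ℝ) ≤ n by positivity)]
  norm_num
  ring

lemma prod_zero_or (x : ℕ → Fin 2) (n : ℕ) :
    prod 0 x n = 0 ∨ prod 0 x n = prod 0 (fun _ => 0) n := by
  induction n with
  | zero => exact Or.inr rfl
  | succ n ih =>
    rw [prod]
    have h2 : x n = 0 ∨ x n = 1 := by
      have := (x n).2
      rcases Nat.lt_or_ge (x n).1 1 with h | h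
      · exact Or.inl (Fin.ext (by simpa using h))
      · exact Or.inr (Fin.ext (by simp; omega))
    rcases h2 with h | h
    · rcases ih with h3 | h3
      · left; rw [h3, mul_zero]
      · right; rw [h3, h]; rfl
    · left
      rw [h]
      simp [mat]

lemma zero_sup {n : ℕ} (hn : 1 ≤ n) :
    (⨆ x : ℕ → Fin 2, nrm (prod 0 x n) ^ (1 / (n : ℝ))) =
      nrm (prod 0 (fun _ => 0) n) ^ (1 / (n : ℝ)) := by
  have hle : ∀ x : ℕ → Fin 2, nrm (prod 0 x n) ^ (1 / (n : ℝ)) ≤
      nrm (prod 0 (fun _ => 0) n) ^ (1 / (n : ℝ)) := by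
    intro x
    rcases prod_zero_or x n with h | h
    · rw [h]
      have h1 : nrm (0 : Matrix (Fin 2) (Fin 2) ℝ) = 0 := by simp [nrm]
      have h2 : (1 / (n : ℝ)) ≠ 0 := by
        have : (0 : ℝ) < n := by exact_mod_cast hn
        positivity
      rw [h1, Real.zero_rpow h2, nrm_zero_const]
      positivity
    · rw [h]
  exact le_antisymm (ciSup_le hle)
    (le_ciSup (f := fun x : ℕ → Fin 2 => nrm (prod 0 x n) ^ (1 / (n : ℝ)))
      ⟨_, by rintro _ ⟨x, rfl⟩; exact hle x⟩ (fun _ => 0))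

lemma zero_tendsto : Tendsto (fun n : ℕ => nrm (prod 0 (fun _ => 0) n) ^ (1 / (n : ℝ))) atTop
    (𝓝 1) := by
  have h1 : Tendsto (fun n : ℕ => Real.log ((n : ℝ) + 2) / n) atTop (𝓝 0) := by
    have h2 : Tendsto (fun t : ℝ => Real.log t / t) atTop (𝓝 0) := by
      have := Real.isLittleO_log_id_atTop.tendsto_div_nhds_zero
      simpa using this
    have h3 : Tendsto (fun k : ℕ => (k : ℝ) + 2) atTop atTop :=
      tendsto_atTop_add_const_right _ _ tendsto_natCast_atTop_atTop
    have h4 := h2.comp h3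
    have h5 : Tendsto (fun n : ℕ => 1 + 2 / (n : ℝ)) atTop (𝓝 (1 + 0)) :=
      (tendsto_const_div_atTop_nhds_zero_nat 2).const_add 1
    have h6 := h4.mul h5
    rw [zero_mul] at h6
    refine h6.congr' ?_
    filter_upwards [eventually_ge_atTop 1] with n hn
    have hn0 : (0 : ℝ) < n := by exact_mod_cast hn
    show Real.log ((n : ℝ) + 2) / ((n : ℝ) + 2) * (1 + 2 / (n : ℝ)) = Real.log ((n : ℝ) + 2) / n
    field_simp
  have h2 := (Real.continuous_exp.tendsto 0).comp h1
  rw [Real.exp_zero] at h2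
  refine h2.congr fun n => ?_
  rw [nrm_zero_const, Real.rpow_def_of_pos (by positivity)]
  show Real.exp (Real.log ((n : ℝ) + 2) / n) = _
  congr 1
  ring

lemma weakly_zero : WeaklyExtremal 0 (fun _ => 0) := by
  unfold WeaklyExtremal
  have h1 : jsr 0 = 1 := by
    unfold jsr
    refine Tendsto.limsup_eq ?_
    refine zero_tendsto.congr' ?_
    filter_upwards [eventually_ge_atTop 1] with n hn
    exact (zero_sup hn).symm
  rw [h1]
  exact zero_tendsto

lemma not_zero {γ : ℝ} (hγ : Irrational γ) (h : IsOptimalRatio 0 γ) : False := by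
  have h1 := h.2 _ weakly_zero
  have h2 : ratio (fun _ => 0) = fun _ => 0 := by
    funext n
    simp [ratio]
  rw [h2] at h1
  have h3 : (0 : ℝ) = γ := tendsto_nhds_unique tendsto_const_nhds h1
  exact hγ ⟨0, by rw [← h3]; simp⟩

/-- For every irrational `γ` there is at most one `α` in `[0,1]` whose unique optimal 1-ratio
is `γ`. -/
theorem result (γ : ℝ) (hγ : Irrational γ) (α β : ℝ) (hα : α ∈ Set.Icc (0 : ℝ) 1)
    (hβ : β ∈ Set.Icc (0 : ℝ) 1) (h1 : IsOptimalRatio α γ) (h2 : IsOptimalRatio β γ) :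
    α = β := by
  have hα0 : 0 < α := by
    rcases eq_or_lt_of_le hα.1 with h | h
    · exact (not_zero hγ (by rw [h]; exact h1)).elim
    · exact h
  have hβ0 : 0 < β := by
    rcases eq_or_lt_of_le hβ.1 with h | h
    · exact (not_zero hγ (by rw [h]; exact h2)).elim
    · exact h
  rw [← Real.exp_log hα0] at h1
  rw [← Real.exp_log hβ0] at h2
  obtain ⟨La, Ka, xa, ka, ha, hra⟩ := ext_ratio h1
  obtain ⟨Lb, Kb, xb, kb, hb, hrb⟩ := ext_ratio h2
  have n1 := unique_param hγ ha hb hra hrb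
  have n2 := unique_param hγ hb ha hrb hra
  have h3 : Real.log α = Real.log β := le_antisymm (not_lt.1 n2) (not_lt.1 n1)
  rw [← Real.exp_log hα0, ← Real.exp_log hβ0, h3]

end Pool.Agent.Results.MP_5175aa_an.IrrationalFibres
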